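import Pool.Agent.Lib.MP_c7af3c_ag.T2.H52.Annb
import Pool.Agent.Lib.MP_c7af3c_ag.T2C.IfaceA

/-!
# MP_c7af3c_ag, project T2C, modules ANN0 and ANN1 (helper52)
-/

set_option autoImplicit false

namespace Pool.Agent.T2C.H52

open MvPolynomial Pool.Agent.Gen Pool.Agent.Sharp Pool.Agent.Edge
open Pool.Agent.T2 (Fk Rac lnf Sizes Sit)
open Pool.Agent.T2.H52 (Nf nf_W nf_V d3 d3_bound cg one_le_cg small_cg CB_cg CB_Xpow deg_mul
  pow_form VT_pow annb0)

section gen

variable {Ω : Type} [Field Ω] {k : Subfield Ω} {Γ : Type} [LinearOrderedCommGroupWithZero Γ]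
  {S : Sizes Ω k Γ} {n c : ℕ} {d : Fin c → ℕ} {D : DSys Ω n c d} {x : Fin (n + 1) → Ω}
  {j0 : Fin (n + 1)}

/-- the power trick, weak form -/
theorem pow_mem (h : Sit S D x j0) (r e : ℕ) (hr : e ≤ r) (g : S.V → Γ) (hg : S.Small g)
    (y : Ω) (hy : ∀ i p, S.v p (x i ^ r * y) ≤ S.nm x p ^ e * g p) : y ∈ k := by
  refine (hg.mono fun p => ?_).mem
  obtain ⟨i, h1, -⟩ := S.exists_nm x p
  have h2 := hy i p
  rw [map_mul, map_pow, ← h1] at h2
  have h3 := S.one_le_nm x p h.hj0
  have h4 : S.nm x p ^ e ≠ 0 := pow_ne_zero _ (lt_of_lt_of_le zero_lt_one h3).ne'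
  have h5 : S.nm x p ^ e * S.v p y ≤ S.nm x p ^ e * g p := by
    refine le_trans ?_ h2
    exact mul_le_mul' (pow_le_pow_right₀ h3 hr) le_rfl
  have h7 : 0 < S.nm x p ^ e := zero_lt_iff.2 h4
  exact (mul_le_mul_iff_right₀ h7).1 h5

theorem mulT_single (m0 : Fin c) (w H : MvPolynomial (Fin (n + 1)) Ω) :
    mulT (Pi.single m0 w : TP Ω n c) H = Pi.single m0 (w * H) := by
  funext m
  unfold mulT
  by_cases hm : m = m0
  · subst hm
    rw [Pi.single_eq_same, Pi.single_eq_same]
  · rw [Pi.single_eq_of_ne hm, Pi.single_eq_of_ne hm, zero_mul]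

theorem single_deg {w : MvPolynomial (Fin (n + 1)) Ω} (hw : w.IsHomogeneous 2) (m0 : Fin c)
    (hd : 2 ≤ d m0) (m : Fin c) (I : Fin (n + 1) →₀ ℕ)
    (hI : I ∈ ((Pi.single m0 w : TP Ω n c) m).support) : I.degree + (d m0 - 2) = d m := by
  by_cases hm : m = m0
  · subst hm
    rw [Pi.single_eq_same] at hI
    have h3 : I.degree = 2 := by
      rw [Finsupp.degree_eq_weight_one]
      exact hw (mem_support_iff.1 hI)
    omega
  · rw [Pi.single_eq_of_ne hm, support_zero] at hI
    exact absurd hI (Finset.notMem_empty _)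

theorem single_k {w : MvPolynomial (Fin (n + 1)) Ω} (hw : ∀ I, coeff I w ∈ k) (m0 : Fin c)
    (m : Fin c) (I : Fin (n + 1) →₀ ℕ) : coeff I ((Pi.single m0 w : TP Ω n c) m) ∈ k := by
  by_cases hm : m = m0
  · subst hm
    rw [Pi.single_eq_same]
    exact hw I
  · rw [Pi.single_eq_of_ne hm, coeff_zero]
    exact k.zero_mem

/-- general form of ANN0: `r = 2` -/
theorem annb0' (h : Sit S D x j0) (r : ℕ) (hr : 2 ≤ r) (w : TP Ω n c)
    (hw : ∀ m, ∀ I ∈ (w m).support, I.degree + r = d m) (hk : ∀ m I, coeff I (w m) ∈ k)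
    (hV : ∀ H : MvPolynomial (Fin (n + 1)) Ω, H.IsHomogeneous r → eval x H = 0 →
      VT D x (mulT w H) ∈ Submodule.span Ω {x}) (m : Fin c) : eval x (w m) = 0 := by
  have hj := h.hj0
  set u := VT D x (mulT w (X j0 ^ r)) with hu
  -- `x ^ V(w X_j0^r)` is over `k`
  have h1 : ∀ a q, plu x u a q ∈ k := by
    intro a q
    refine pow_mem h r 2 hr (fun p => cg S w p * S.M p)
      ((small_cg S w hk).mul S.small_M) _ fun i p => ?_
    have h2 := hV _ (pow_form hj r i).1 (pow_form hj r i).2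
    rw [VT_pow] at h2
    obtain ⟨t, ht⟩ := Submodule.mem_span_singleton.1 h2
    have h3 : x i ^ r * plu x u a q = plu x (VT D x (mulT w (X i ^ r))) a q := by
      have h4 : ∀ a, VT D x (mulT w (X i ^ r)) a = t * x a + x i ^ r * u a := by
        intro a
        have := congrFun ht a
        rw [Pi.smul_apply, Pi.sub_apply, Pi.smul_apply, smul_eq_mul, smul_eq_mul] at this
        rw [this]
        ring
      unfold plu
      rw [h4, h4]
      ring
    rw [h3]
    have h5 := h.v_wedge_le p (cg S w p) (mulT w (X i ^ r))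
      (fun m I hI => deg_mul r w hw (isHomogeneous_X_pow i r) m I hI)
      (fun m => by
        have := (CB_cg S w p m).mul (S.v p) (CB_Xpow (S.v p) i r)
        rwa [mul_one] at this) a q
    rw [mul_comm] at h5
    exact h5
  have h1' : ∀ a q, plu x u a q = 0 := by
    intro a q
    by_contra hne
    refine h.nl (fun l => plu x u a l) (fun l => plu x u q l) (fun l => h1 a l) (fun l => h1 q l)
      (x q / plu x u a q) (-(x a / plu x u a q)) ?_
    funext l
    rw [Pi.add_apply, Pi.smul_apply, Pi.smul_apply, smul_eq_mul, smul_eq_mul]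
    have h2 : x l * plu x u a q = x q * plu x u a l - x a * plu x u q l := by
      unfold plu
      ring
    field_simp
    linear_combination h2
  have h2 : u = u j0 • x := by
    funext q
    have h3 := h1' j0 q
    unfold plu at h3
    rw [hj, one_mul, sub_eq_zero] at h3
    rw [Pi.smul_apply, smul_eq_mul, h3, mul_comm]
  have h3 := grad_VT D x h.h0 (mulT w (X j0 ^ r)) (fun m I hI => by
    have := deg_mul r w hw (isHomogeneous_X_pow j0 r) m I (mem_support_iff.2 hI)
    rw [Finsupp.degree_eq_weight_one] at this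
    exact this) m
  rw [← hu, h2] at h3
  have h4 : ∑ p, eval x (pderiv p (D.F m)) * (u j0 • x) p = 0 := by
    have h5 := grad_x D x h.h0 m
    have h6 : ∑ p, eval x (pderiv p (D.F m)) * (u j0 • x) p =
        u j0 * ∑ p, eval x (pderiv p (D.F m)) * x p := by
      rw [Finset.mul_sum]
      refine Finset.sum_congr rfl fun p _ => ?_
      rw [Pi.smul_apply, smul_eq_mul]
      ring
    rw [h6, h5, mul_zero]
  rw [h4] at h3
  have h5 : eval x (mulT w (X j0 ^ r) m) = 0 := by
    rw [← neg_eq_zero]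
    exact h3.symm
  unfold mulT at h5
  rwa [map_mul, map_pow, eval_X, hj, one_pow, mul_one] at h5

/-- general form of ANN1 -/
theorem annb1' (h : Sit S D x j0) (r : ℕ) (hr : 3 ≤ r) (w : TP Ω n c)
    (hw : ∀ m, ∀ I ∈ (w m).support, I.degree + r = d m) (hk : ∀ m I, coeff I (w m) ∈ k)
    (η : Fin (n + 1) → Ω) (g : S.V → Γ) (hg : S.Small g) (hη : Nf S x g η)
    (hV : ∀ H : MvPolynomial (Fin (n + 1)) Ω, H.IsHomogeneous r → eval x H = 0 →
      VT D x (mulT w H) ∈ Submodule.span Ω {x, η}) (i0 i1 i2 : Fin (n + 1)) :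
    d3 x η (VT D x (mulT w (X j0 ^ r))) i0 i1 i2 ∈ k := by
  have hj := h.hj0
  set u := VT D x (mulT w (X j0 ^ r)) with hu
  refine pow_mem h r 3 hr (fun p => g p * (cg S w p * S.M p))
    (hg.mul ((small_cg S w hk).mul S.small_M)) _ fun i p => ?_
  have h2 := hV _ (pow_form hj r i).1 (pow_form hj r i).2
  rw [VT_pow] at h2
  obtain ⟨t, t', ht⟩ := Submodule.mem_span_pair.1 h2
  have h3 : x i ^ r * d3 x η u i0 i1 i2 = d3 x η (VT D x (mulT w (X i ^ r))) i0 i1 i2 := by
    have h4 : ∀ a, VT D x (mulT w (X i ^ r)) a = t * x a + t' * η a + x i ^ r * u a := by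
      intro a
      have := congrFun ht a
      simp only [Pi.add_apply, Pi.smul_apply, Pi.sub_apply, smul_eq_mul] at this
      rw [this]
      ring
    unfold d3
    rw [h4, h4, h4]
    ring
  rw [h3]
  have h5 : Nf S x (fun p => cg S w p * S.M p) (VT D x (mulT w (X i ^ r))) :=
    nf_V h (cg S w) _ (fun m I hI => deg_mul r w hw (isHomogeneous_X_pow i r) m I hI)
      fun p m => by
        have := (CB_cg S w p m).mul (S.v p) (CB_Xpow (S.v p) i r)
        rwa [mul_one] at this
  exact d3_bound g _ hη h5 p i0 i1 i2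

end gen

/-- Module ANN0. -/
theorem ann0 : Ann0Statement := by
  intro _ Ω _ _ k Γ _ S n c d D x j0 h η m0 hm0 w hw hV
  have h1 := annb0' h (d m0 - 2) (by omega) (Pi.single m0 w : TP Ω n c)
    (single_deg hw.1 m0 (by omega)) (single_k hw.2 m0) (fun H hH hH0 => ?_) m0
  · rwa [Pi.single_eq_same] at h1
  · have h2 := hV H hH hH0
    have h3 : Hs x η = Submodule.span Ω {x} := by
      unfold Hs
      rw [Set.range_eq_empty]
      simp
    rw [h3] at h2
    rwa [mulT_single]

/-- Module ANN1. -/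
theorem ann1 : Ann1Statement := by
  intro Ω _ _ k Γ _ S n c d D x j0 h η m0 hm0 hη _ w hw hV i
  have h2 : Hs x η = Submodule.span Ω {x, η 0} := by
    unfold Hs
    congr 1
    ext u
    simp [eq_comm]
  obtain ⟨g, hg, hnf⟩ : ∃ g : S.V → Γ, S.Small g ∧ Nf S x g (η 0) := by
    rcases hη with ⟨p, q, hpq⟩ | ⟨G, hG, hG0, hGe⟩
    · rw [hpq]
      exact ⟨_, h.small_MF.mul h.small_MF, nf_W h p q⟩
    · rw [hGe]
      refine ⟨_, (small_cg S G fun m => (hG m).2).mul S.small_M,
        nf_V h (cg S G) _ (fun m I hI => ?_) (fun p m => CB_cg S G p m)⟩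
      rw [Finsupp.degree_eq_weight_one]
      exact (hG m).1 (mem_support_iff.1 hI)
  have h3 := annb1' h (d m0 - 2) (by omega) (Pi.single m0 w : TP Ω n c)
    (single_deg hw.1 m0 (by omega)) (single_k hw.2 m0) (η 0) g hg hnf (fun H hH hH0 => by
      have h4 := hV H hH hH0
      rw [h2] at h4
      rwa [mulT_single]) (i 0) (i 1) (i 2)
  rw [mulT_single] at h3
  rw [Matrix.det_fin_three]
  convert h3 using 1
  unfold d3
  simp only [Matrix.of_apply, Matrix.cons_val_zero, Matrix.cons_val_one, Matrix.cons_val]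
  ring

end Pool.Agent.T2C.H52
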