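import Pool.Agent.Lib.MP_c7af3c_ag.T2C.H52.Hbl2
import Pool.Agent.Lib.MP_c7af3c_ag.LINES.H19.Htl
import Pool.Agent.Lib.MP_c7af3c_ag.LINES.H19.Lsur
import Pool.Agent.Lib.MP_c7af3c_ag.T2.Sizes

/-!
# MP_c7af3c_ag, project T2C, module HL5C: lines with small variation space, `n = c + 3`,
`sum d = n + 2` (helper52, following LINES/H19/Htl.lean of helper19)
-/

set_option autoImplicit false

namespace Pool.Agent.T2C.H52

open MvPolynomial WithZero Pool.Agent.Gen Pool.Agent.Sharp Pool.Agent.Sharp.H54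
open Pool.Agent.Lines Pool.Agent.Lines.H19

section

variable {L : Type} [Field L] {n c : ℕ} {d : Fin c → ℕ} (D : DSys L n c d)
  (x y : Fin (n + 1) → L)

/-- Module HTL with the sharper count. -/
theorem htlr2 [CharZero L] (hxy : LinearIndependent L ![x, y]) (q : ℕ)
    (hq : Module.finrank L (SL D x y) = 4 + q)
    (h1 : c + ∑ m, d m + q ≤ 2 * n + 1) (E : ℕ)
    (hE : ∀ (K : Type) [Fintype K] (f : K → H26.Mi d),
      Fintype.card K + 2 * n = c + ∑ m, d m + q + 2 → Function.Injective f →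
      ∑ b, ((f b).2 : ℕ) ≤ E ∧ ∑ b, (d (f b).1 - ((f b).2 : ℕ)) ≤ E)
    (h2 : n + 2 + q + E ≤ ∑ m, d m * (d m + 1) / 2)
    (S : PlaceSys L) (hS : S.IsProd) (B : S.V → ℕ) (hB : BD S D B) :
    hL S x y ≤ (4 * n + 2) * tot S B := by
  classical
  obtain ⟨i0, j0, h00⟩ := exists_plu hxy
  -- the columns `W`
  obtain ⟨w, W, hW, hW'⟩ := H75.ext_fam (PP x y) (PP_li hxy)
    (fun q : Fin (n + 1) × Fin (n + 1) => WW D x y q.1 q.2)
  -- the columns `H`
  obtain ⟨κ, H, hH, hH'⟩ := H75.ext_fam _ hW (fun t : HI n c d => VV D x y (HG x y t))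
  -- the monomials
  obtain ⟨t, φ, hφ, hφ'⟩ := H75.ext_fam _ hH
    (fun b : H26.Mi d => VV D x y (H26.mon d L i0 j0 b))
  set f1 := Sum.elim (PP x y) ((fun q : Fin (n + 1) × Fin (n + 1) => WW D x y q.1 q.2) ∘ W)
    with hf1
  set f2 := Sum.elim f1 ((fun t : HI n c d => VV D x y (HG x y t)) ∘ H) with hf2
  have hr12 : Set.range f1 ⊆ Set.range f2 := by
    rintro _ ⟨a, rfl⟩
    exact ⟨Sum.inl a, rfl⟩
  have hPPf2 : Set.range (PP x y) ⊆ Set.range f2 := by
    rintro _ ⟨a, rfl⟩
    exact ⟨Sum.inl (Sum.inl a), rfl⟩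
  -- the span of the first columns
  have hsp : Submodule.span L (Set.range f2) = SL D x y := by
    apply le_antisymm
    · rw [Submodule.span_le]
      rintro _ ⟨(a | a) | a, rfl⟩
      · exact Submodule.subset_span (Or.inl (Or.inl ⟨a, rfl⟩))
      · exact Submodule.subset_span (Or.inl (Or.inr ⟨(W a).1, (W a).2, rfl⟩))
      · rw [SL_eq D x y hxy]
        refine Submodule.subset_span (Or.inr ⟨⟨LC.H (H a).1.1 (H a).1.2.1.1 (H a).1.2.1.2.1
          (H a).1.2.1.2.2 (H a).1.2.2, (H a).2⟩, ?_⟩)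
        change VV D x y _ = VV D x y (HG x y (H a))
        rw [HG_eq]
    · rw [SL_eq D x y hxy, Submodule.span_le]
      rintro _ (⟨a, rfl⟩ | ⟨⟨l, hl⟩, rfl⟩)
      · exact Submodule.subset_span (hPPf2 ⟨a, rfl⟩)
      · cases l with
        | W p q => exact Submodule.span_mono hr12 (hW' (p, q))
        | H m i j k I =>
          have h3 := hH' ⟨(m, (i, j, k), I), hl⟩
          rw [HG_eq] at h3
          exact h3
  have hc4 : Fintype.card (Fin 2 × Fin 2) = 4 := by simp
  have hwk : w + κ = q := by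
    have h3 := finrank_span_eq_card hH
    rw [hsp, hq, Fintype.card_sum, Fintype.card_sum, hc4, Fintype.card_fin, Fintype.card_fin] at h3
    omega
  have htop : Submodule.span L (Set.range (Sum.elim f2
      ((fun b : H26.Mi d => VV D x y (H26.mon d L i0 j0 b)) ∘ φ))) = ⊤ := by
    rw [eq_top_iff, ← lsur L n c d D x y hxy i0 j0 h00]
    refine sup_le ?_ ?_
    · rw [← hsp]
      refine Submodule.span_mono ?_
      rintro _ ⟨a, rfl⟩
      exact ⟨Sum.inl a, rfl⟩
    · rw [Submodule.span_le]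
      rintro _ ⟨b, rfl⟩
      obtain ⟨b', hb'⟩ := mon_swap (L := L) i0 j0 b
      simp only [hb']
      exact hφ' b'
  have ht : 4 + w + κ + t = 2 * (n + 1) := by
    have h3 := finrank_span_eq_card hφ
    rw [htop, finrank_top, Module.finrank_pi, Fintype.card_sum, Fintype.card_sum,
      Fintype.card_sum, hc4, Fintype.card_fin, Fintype.card_fin, Fintype.card_fin,
      Fintype.card_prod, Fintype.card_fin, Fintype.card_fin] at h3
    omega
  have hφinj : Function.Injective φ := by
    have h3 := hφ.injective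
    intro a b hab
    have h4 : Sum.elim f2 ((fun b : H26.Mi d => VV D x y (H26.mon d L i0 j0 b)) ∘ φ)
        (Sum.inr a) = Sum.elim f2
        ((fun b : H26.Mi d => VV D x y (H26.mon d L i0 j0 b)) ∘ φ) (Sum.inr b) := by
      simp only [Sum.elim_inr, Function.comp_apply, hab]
    exact Sum.inr_injective (h3 h4)
  set S0 : Set (H26.Mi d) := Set.range φ with hS0
  have hcard : S0.ncard = t := by
    rw [hS0, ← Set.image_univ, Set.ncard_image_of_injective _ hφinj, Set.ncard_univ,
      Nat.card_eq_fintype_card, Fintype.card_fin]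
  have hMi : S0.ncard ≤ c + ∑ m, d m := by
    have h3 : S0.ncard ≤ Nat.card (H26.Mi d) := by
      rw [← Set.ncard_univ]
      exact Set.ncard_le_ncard (Set.subset_univ _) (Set.toFinite _)
    rw [Nat.card_eq_fintype_card, Fintype.card_sigma] at h3
    simp only [Fintype.card_fin, Finset.sum_add_distrib, Finset.sum_const, Finset.card_univ,
      smul_eq_mul, mul_one] at h3
    omega
  -- the independent family in the form of helper26
  set A : Fin κ → Fin c → MvPolynomial (Fin (n + 1)) L := fun k => HA (H k) with hA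
  set hh : Fin κ → Fin (n + 1) × Fin (n + 1) × Fin (n + 1) := fun k => (H k).1.2.1 with hhh
  have hcol : H26.colB D ![x, y] W (fun k => mulT (A k)
      (hT (![x, y] 0) (![x, y] 1) (hh k).1 (hh k).2.1 (hh k).2.2)) =
      f2 ∘ (Equiv.sumAssoc (Fin 2 × Fin 2) (Fin w) (Fin κ)).symm := by
    funext a
    rcases a with a | a | a
    · change H26.fx ![x, y] a = PP x y a
      rw [fx_eq_PP]
    · exact W2_eq_WW D x y (W a)
    · exact V2_eq_VV D x y _
  have hli : LinearIndependent L (Sum.elim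
      (H26.colB D ![x, y] W fun k => mulT (A k)
        (hT (![x, y] 0) (![x, y] 1) (hh k).1 (hh k).2.1 (hh k).2.2))
      fun q : S0 => H26.V2 D ![x, y] (H26.mon d L i0 j0 q.1)) := by
    have e1 : Sum.elim
        (H26.colB D ![x, y] W fun k => mulT (A k)
          (hT (![x, y] 0) (![x, y] 1) (hh k).1 (hh k).2.1 (hh k).2.2))
        (fun q : S0 => H26.V2 D ![x, y] (H26.mon d L i0 j0 q.1)) =
        Sum.elim f2 ((fun b : H26.Mi d => VV D x y (H26.mon d L i0 j0 b)) ∘ φ) ∘
          Sum.map (Equiv.sumAssoc (Fin 2 × Fin 2) (Fin w) (Fin κ)).symm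
            (Equiv.ofInjective φ hφinj).symm := by
      funext a
      rcases a with a | a
      · rw [hcol]
        rfl
      · simp only [Sum.elim_inr, Function.comp_apply, Sum.map_inr]
        rw [V2_eq_VV, Equiv.apply_ofInjective_symm hφinj]
    rw [e1]
    refine hφ.comp _ ?_
    exact Function.Injective.sumMap (Equiv.injective _) (Equiv.injective _)
  have key := hbl2 D ![x, y] (i0 := i0) (j0 := j0) (by simpa using h00) S hS B hB W A
    (fun k => HA_adm (H k)) (fun p k m => HA_CB (S.v p) (H k) m) hh S0 hli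
    (c + ∑ m, d m - S0.ncard) (by omega) (by rw [hcard]; exact ht) (by
      intro G hG h0
      rw [V2_eq_VV, hcol]
      have h3 : Set.range (f2 ∘ (Equiv.sumAssoc (Fin 2 × Fin 2) (Fin w) (Fin κ)).symm) =
          Set.range f2 := (Equiv.surjective _).range_comp f2
      rw [h3, hsp]
      exact Submodule.subset_span (Or.inr ⟨G, hG, h0, rfl⟩)) E
      (fun K _ f hK hf => hE K f (by omega) hf)
  have e0 : hL S (![x, y] 0) (![x, y] 1) = hL S x y := rfl
  rw [e0] at key
  have hnn := hL_nonneg x y S hS hxy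
  have htn := tot_nonneg S B
  have k1 : (n + 1 + κ + E : ℕ) + 1 ≤ ∑ m, d m * (d m + 1) / 2 := by omega
  have k2 : (2 * w + κ + (c + ∑ m, d m) : ℕ) ≤ 4 * n + 2 := by omega
  have k3 : ((n + 1 + κ + E : ℕ) : ℤ) + 1 ≤
      ((∑ m, d m * (d m + 1) / 2 : ℕ) : ℤ) := by exact_mod_cast k1
  have k4 : ((2 * w + κ + (c + ∑ m, d m) : ℕ) : ℤ) ≤ 4 * n + 2 := by exact_mod_cast k2
  have k5 := mul_le_mul_of_nonneg_right k3 hnn
  have k6 := mul_le_mul_of_nonneg_right k4 htn
  linarith

end

/-- the numerical inequality: `a = d - 1`, `sum a = 5` -/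
theorem num1 {c : ℕ} (a : Fin c → ℕ) (h1 : ∀ m, 1 ≤ a m) (hs : ∑ m, a m = 5) (m : Fin c) :
    2 * a m + 2 ≤ ∑ m, a m * (a m + 1) / 2 := by
  have hge : ∀ m, a m ≤ a m * (a m + 1) / 2 := by
    intro m
    have h := h1 m
    rw [Nat.le_div_iff_mul_le (by norm_num)]
    exact Nat.mul_le_mul_left _ (by omega)
  have e1 := Finset.add_sum_erase Finset.univ (fun m => a m * (a m + 1) / 2) (Finset.mem_univ m)
  have e2 := Finset.add_sum_erase Finset.univ a (Finset.mem_univ m)
  have e3 : ∑ m ∈ Finset.univ.erase m, a m ≤ ∑ m ∈ Finset.univ.erase m, a m * (a m + 1) / 2 :=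
    Finset.sum_le_sum fun m _ => hge m
  have h5 : a m ≤ 5 := by omega
  have h6 := h1 m
  generalize ha : a m = t at *
  interval_cases t <;> simp at e1 ⊢ <;> omega

theorem num2 {c : ℕ} (a : Fin c → ℕ) (h1 : ∀ m, 1 ≤ a m) (hs : ∑ m, a m = 5) (m m' : Fin c)
    (hm : m ≠ m') : a m + a m' + 3 ≤ ∑ m, a m * (a m + 1) / 2 := by
  have hge : ∀ m, a m ≤ a m * (a m + 1) / 2 := by
    intro m
    have h := h1 m
    rw [Nat.le_div_iff_mul_le (by norm_num)]
    exact Nat.mul_le_mul_left _ (by omega)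
  have hmem : m' ∈ Finset.univ.erase m := Finset.mem_erase.2 ⟨Ne.symm hm, Finset.mem_univ _⟩
  have e1 := Finset.add_sum_erase Finset.univ (fun m => a m * (a m + 1) / 2) (Finset.mem_univ m)
  have e1' := Finset.add_sum_erase _ (fun m => a m * (a m + 1) / 2) hmem
  have e2 := Finset.add_sum_erase Finset.univ a (Finset.mem_univ m)
  have e2' := Finset.add_sum_erase _ a hmem
  have e3 : ∑ m ∈ (Finset.univ.erase m).erase m', a m ≤
      ∑ m ∈ (Finset.univ.erase m).erase m', a m * (a m + 1) / 2 :=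
    Finset.sum_le_sum fun m _ => hge m
  have h6 := h1 m
  have h7 := h1 m'
  have h5 : a m + a m' ≤ 5 := by omega
  generalize ha : a m = t at *
  generalize ha' : a m' = t' at *
  have ht : t ≤ 4 := by omega
  interval_cases t
  · have ht' : t' ≤ 4 := by omega
    interval_cases t' <;> simp at e1 e1' ⊢ <;> omega
  · have ht' : t' ≤ 3 := by omega
    interval_cases t' <;> simp at e1 e1' ⊢ <;> omega
  · have ht' : t' ≤ 2 := by omega
    interval_cases t' <;> simp at e1 e1' ⊢ <;> omega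
  · have ht' : t' ≤ 1 := by omega
    interval_cases t' <;> simp at e1 e1' ⊢ <;> omega

theorem sum_tri {c : ℕ} (d : Fin c → ℕ) (h2 : ∀ m, 2 ≤ d m) :
    ∑ m, d m * (d m + 1) / 2 =
      c + ∑ m, (d m - 1) + ∑ m, (d m - 1) * ((d m - 1) + 1) / 2 := by
  have h : ∀ m, d m * (d m + 1) / 2 = 1 + (d m - 1) + (d m - 1) * ((d m - 1) + 1) / 2 := by
    intro m
    obtain ⟨a, ha⟩ := Nat.exists_eq_add_of_le (h2 m)
    rw [ha]
    have e1 : 2 + a - 1 = a + 1 := by omega
    rw [e1]
    have e2 : (2 + a) * (2 + a + 1) = (a + 1) * (a + 1 + 1) + (2 + a) * 2 := by ring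
    rw [e2, Nat.add_mul_div_right _ _ (by norm_num)]
    omega
  rw [Finset.sum_congr rfl fun m _ => h m, Finset.sum_add_distrib, Finset.sum_add_distrib]
  simp

/-- Module HL5C. -/
theorem hl5c (n c : ℕ) (d : Fin c → ℕ) (hn : n = c + 3) (hs : ∑ m, d m = n + 2)
    (h2 : ∀ m, 2 ≤ d m) : T2.HL5 n c d := by
  refine ⟨4 * n + 2, ?_⟩
  intro L _ _ D hcomm x y hxy h0 hfin S hS B hB
  have h4 := four L n c d D x y hxy
  obtain ⟨q, hq⟩ := Nat.exists_eq_add_of_le h4
  have hq1 : q ≤ 1 := by omega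
  have hsa : ∑ m, (d m - 1) = 5 := by
    have h5 : ∑ m, (d m - 1) + c = ∑ m, d m := by
      have h6 : ∑ m, d m = ∑ m, ((d m - 1) + 1) :=
        Finset.sum_congr rfl fun m _ => by have := h2 m; omega
      rw [h6, Finset.sum_add_distrib]
      simp
    omega
  have htri := sum_tri d h2
  rw [hsa] at htri
  set Tri := ∑ m, (d m - 1) * ((d m - 1) + 1) / 2 with hTri
  have ha1 : ∀ m, 1 ≤ d m - 1 := fun m => by have := h2 m; omega
  have hnum1 : ∀ m, 2 * (d m - 1) + 2 ≤ Tri := fun m => num1 (fun m => d m - 1) ha1 hsa m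
  have hnum2 : ∀ m m', m ≠ m' → (d m - 1) + (d m' - 1) + 3 ≤ Tri :=
    fun m m' h => num2 (fun m => d m - 1) ha1 hsa m m' h
  have hTri5 : 5 ≤ Tri := by
    rw [hTri, ← hsa]
    refine Finset.sum_le_sum fun m _ => ?_
    have h := ha1 m
    rw [Nat.le_div_iff_mul_le (by norm_num)]
    exact Nat.mul_le_mul_left _ (by omega)
  have h1 := htlr2 D x y hxy q hq (by omega) (Tri - q) ?_ (by omega) S hS B hB
  · exact_mod_cast h1
  · intro K _ f hK hf
    classical
    have hcard : Fintype.card K = 1 + q := by omega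
    have hle : ∀ b, ((f b).2 : ℕ) ≤ d (f b).1 := fun b => by have := (f b).2.2; omega
    obtain rfl | rfl : q = 0 ∨ q = 1 := by omega
    · obtain ⟨b0, hb0⟩ := Fintype.card_eq_one_iff.1 hcard
      have hsum : ∀ g : K → ℕ, ∑ b, g b = g b0 := by
        intro g
        rw [Finset.sum_eq_single b0 (fun b _ h => absurd (hb0 b) h)
          (fun h => absurd (Finset.mem_univ _) h)]
      rw [hsum, hsum]
      have e1 := hnum1 (f b0).1
      have e2 := h2 (f b0).1
      have e3 := hle b0
      constructor <;> omega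
    · have hcard2 : Fintype.card K = 2 := by omega
      obtain ⟨b1, b2, hb, huniv⟩ := Finset.card_eq_two.1 (Finset.card_univ.trans hcard2)
      have hsum : ∀ g : K → ℕ, ∑ b, g b = g b1 + g b2 := by
        intro g
        rw [huniv, Finset.sum_pair hb]
      rw [hsum, hsum]
      have hne : f b1 ≠ f b2 := fun h => hb (hf h)
      have e3 := hle b1
      have e4 := hle b2
      have e5 := h2 (f b1).1
      have e6 := h2 (f b2).1
      by_cases hm : (f b1).1 = (f b2).1
      · have e1 := hnum1 (f b1).1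
        have hne2 : ((f b1).2 : ℕ) ≠ ((f b2).2 : ℕ) := by
          intro h
          apply hne
          refine Sigma.ext hm ?_
          refine (Fin.heq_ext_iff (by rw [hm])).2 h
        have hd : d (f b2).1 = d (f b1).1 := by rw [hm]
        constructor <;> omega
      · have e1 := hnum2 _ _ hm
        constructor <;> omega

end Pool.Agent.T2C.H52
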