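import Pool.Agent.Lib.MP_c7af3c_ag.T2C.H52.Rows

/-!
# MP_c7af3c_ag, project T2C, module HL5C, part 3: the height inequality of a line with a sharper
count of the extra rows (helper52, following LINES/H26/Hbl.lean of helper26)
-/

set_option autoImplicit false
set_option linter.unusedSectionVars false

namespace Pool.Agent.T2C.H52

open MvPolynomial WithZero Matrix Pool.Agent.Gen Pool.Agent.Sharp Pool.Agent.Lines
open Pool.Agent.Lines.H26

theorem pow_two_le {Γ : Type} [LinearOrderedCommGroupWithZero Γ] {x y b : Γ} (hb : 1 ≤ b)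
    (h1 : x ≤ b) (h2 : y ≤ x) (h3 : x * y = b) (I J E : ℕ) (hI : I ≤ E) (hJ : J ≤ E) :
    x ^ I * y ^ J ≤ b ^ E := by
  rcases le_total J I with h | h
  · obtain ⟨t, rfl⟩ := Nat.exists_eq_add_of_le h
    calc x ^ (J + t) * y ^ J = x ^ t * (x * y) ^ J := by
          rw [pow_add, mul_pow, mul_right_comm, mul_comm]
      _ ≤ b ^ t * b ^ J := by
          rw [h3]
          exact mul_le_mul' (pow_le_pow_left' h1 t) le_rfl
      _ = b ^ (J + t) := by rw [pow_add, mul_comm]
      _ ≤ b ^ E := pow_le_pow_right' hb hI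
  · obtain ⟨t, rfl⟩ := Nat.exists_eq_add_of_le h
    calc x ^ I * y ^ (I + t) = y ^ t * (x * y) ^ I := by
          rw [pow_add, mul_pow, ← mul_assoc, mul_comm]
      _ ≤ b ^ t * b ^ I := by
          rw [h3]
          exact mul_le_mul' (pow_le_pow_left' (h2.trans h1) t) le_rfl
      _ = b ^ (I + t) := by rw [pow_add, mul_comm]
      _ ≤ b ^ E := pow_le_pow_right' hb hJ

section main
variable {L : Type} [Field L] {n c : ℕ} {d : Fin c → ℕ} (D : DSys L n c d)
  (z : Fin 2 → Fin (n + 1) → L)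

/-- the factorisation of the change of the pair of coordinates -/
theorem CM_red (v : Valuation L ℤᵐ⁰) {i0 j0 : Fin (n + 1)} (h00 : plu (z 0) (z 1) i0 j0 ≠ 0)
    (i j : Fin (n + 1)) {b : ℤᵐ⁰}
    (hb : ∀ i j, v (plu (z 0) (z 1) i j / plu (z 0) (z 1) i0 j0) ≤ b)
    (hij : v (plu (z 0) (z 1) i j / plu (z 0) (z 1) i0 j0) = b) (hb0 : b ≠ 0) :
    ∃ (A B : Matrix (Mi d) (Mi d) L) (e1 e2 : L), (∀ s t, v (A s t) ≤ 1) ∧
      (∀ s t, v (B s t) ≤ v e1 ^ (s.2 : ℕ) * v e2 ^ (d s.1 - (s.2 : ℕ))) ∧ v e1 ≤ b ∧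
      v e2 ≤ v e1 ∧ v e1 * v e2 = b ∧ CM z d i0 j0 i j = A * B := by
  have hdet : (plu (z 0) (z 1) i j0 / plu (z 0) (z 1) i0 j0) *
      (plu (z 0) (z 1) i0 j / plu (z 0) (z 1) i0 j0) -
      (plu (z 0) (z 1) i0 i / plu (z 0) (z 1) i0 j0) *
      (plu (z 0) (z 1) j j0 / plu (z 0) (z 1) i0 j0) =
      plu (z 0) (z 1) i j / plu (z 0) (z 1) i0 j0 := by
    field_simp
    unfold plu
    ring
  have hdet0 : plu (z 0) (z 1) i j / plu (z 0) (z 1) i0 j0 ≠ 0 := by
    intro h
    rw [h, map_zero] at hij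
    exact hb0 hij.symm
  obtain ⟨p, q, r, s, p', q', r', s', e1, e2, hp, hq, hr, hs, hp', hq', hr', hs', he1, he2,
    he, h1, h2, h3, h4⟩ := (exists_red v b _ _ _ _ (hb i j0) (hb i0 i) (hb j j0) (hb i0 j)
      (by rw [hdet]; exact hdet0)).ex
  refine ⟨Matrix.blockDiagonal' fun m => symM (d m) p' q' r' s',
    Matrix.blockDiagonal' fun m => symM (d m) (p * e1) (q * e2) (r * e1) (s * e2), e1, e2,
    ?_, ?_, he1, he2, ?_, ?_⟩
  · rintro ⟨m, a⟩ ⟨m', a'⟩
    by_cases h : m = m'
    · subst h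
      rw [Matrix.blockDiagonal'_apply_eq]
      have := symM_le v (d m) hp' hq' hr' hs' a a'
      rwa [one_pow] at this
    · rw [Matrix.blockDiagonal'_apply_ne _ _ _ h, map_zero]
      exact zero_le
  · rintro ⟨m, a⟩ ⟨m', a'⟩
    by_cases h : m = m'
    · subst h
      rw [Matrix.blockDiagonal'_apply_eq]
      have e := symM_mul (d m) p q r s e1 0 0 e2
      have e' : symM (d m) (p * e1) (q * e2) (r * e1) (s * e2) =
          symM (d m) e1 0 0 e2 * symM (d m) p q r s := by
        rw [← e]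
        congr 1 <;> ring
      rw [e', Matrix.mul_apply, Finset.sum_eq_single a]
      · rw [symM_diag, if_pos rfl, map_mul, map_mul, map_pow, map_pow]
        have := symM_le v (d m) hp hq hr hs a a'
        rw [one_pow] at this
        calc v e1 ^ (a : ℕ) * v e2 ^ (d m - (a : ℕ)) * v (symM (d m) p q r s a a') ≤
            v e1 ^ (a : ℕ) * v e2 ^ (d m - (a : ℕ)) * 1 := mul_le_mul' le_rfl this
          _ = _ := mul_one _
      · intro t _ ht
        rw [symM_diag, if_neg (Ne.symm ht), zero_mul]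
      · intro h
        exact absurd (Finset.mem_univ _) h
    · rw [Matrix.blockDiagonal'_apply_ne _ _ _ h, map_zero]
      exact zero_le
  · rw [← map_mul, he, hdet, hij]
  · rw [← Matrix.blockDiagonal'_mul]
    unfold CM
    congr 1
    funext m
    rw [← symM_mul, ← h1, ← h2, ← h3, ← h4]

/-- module HBL with the sharper count -/
theorem hbl2 {i0 j0 : Fin (n + 1)} (h00 : plu (z 0) (z 1) i0 j0 ≠ 0)
    (S : PlaceSys L) (hS : S.IsProd) (B : S.V → ℕ) (hB : BD S D B) {w κ : ℕ}
    (W : Fin w → Fin (n + 1) × Fin (n + 1))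
    (A : Fin κ → Fin c → MvPolynomial (Fin (n + 1)) L) (hA : ∀ k, Adm d (A k))
    (hA' : ∀ p k m, CB (S.v p) (A k m) 1)
    (h : Fin κ → Fin (n + 1) × Fin (n + 1) × Fin (n + 1)) (S0 : Set (Mi d))
    (hli : LinearIndependent L (Sum.elim
      (colB D z W fun k => mulT (A k) (hT (z 0) (z 1) (h k).1 (h k).2.1 (h k).2.2))
      fun q : S0 => V2 D z (mon d L i0 j0 q.1)))
    (r : ℕ) (hr : r + S0.ncard = c + ∑ m, d m) (hcard : 4 + w + κ + S0.ncard = 2 * (n + 1))
    (hsp : ∀ G : Fin c → MvPolynomial (Fin (n + 1)) L, (∀ m, (G m).IsHomogeneous (d m)) →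
      (∀ m, lineP (G m) (z 0) (z 1) = 0) → V2 D z G ∈ Submodule.span L (Set.range
        (colB D z W fun k => mulT (A k) (hT (z 0) (z 1) (h k).1 (h k).2.1 (h k).2.2))))
    (E : ℕ) (hE : ∀ (K : Type) [Fintype K] (f : K → Mi d), Fintype.card K = r →
      Function.Injective f → ∑ b, ((f b).2 : ℕ) ≤ E ∧ ∑ b, (d (f b).1 - ((f b).2 : ℕ)) ≤ E) :
    ((∑ m, d m * (d m + 1) / 2 : ℕ) : ℤ) * hL S (z 0) (z 1) ≤
      (2 * w + κ + (c + ∑ m, d m) : ℕ) * tot S B +
        (n + 1 + κ + E : ℕ) * hL S (z 0) (z 1) := by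
  classical
  set G : Fin κ → Fin c → MvPolynomial (Fin (n + 1)) L :=
    fun k => mulT (A k) (hT (z 0) (z 1) (h k).1 (h k).2.1 (h k).2.2) with hG
  -- the square matrix
  have hMi : Fintype.card (Mi d) = c + ∑ m, d m := by
    rw [Fintype.card_sigma]
    simp only [Fintype.card_fin, Finset.sum_add_distrib, Finset.sum_const, Finset.card_univ,
      smul_eq_mul, mul_one]
    omega
  have hK : Fintype.card {q : Mi d // q ∉ S0} = r := by
    have h1 : Fintype.card {q : Mi d // q ∉ S0} = Fintype.card (Mi d) -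
        Fintype.card {q : Mi d // q ∈ S0} := Fintype.card_subtype_compl _
    have h2 : Fintype.card {q : Mi d // q ∈ S0} = S0.ncard := by
      rw [← Nat.card_eq_fintype_card]
      rfl
    rw [h1, h2, hMi]
    omega
  have e : Ci d w κ ≃ (Fin 2 × Fin (n + 1)) ⊕ {q : Mi d // q ∉ S0} := by
    refine Fintype.equivOfCardEq ?_
    rw [Fintype.card_sum, Fintype.card_sum, Fintype.card_sum, Fintype.card_sum, hK, hMi,
      Fintype.card_prod, Fintype.card_prod]
    simp only [Fintype.card_fin]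
    omega
  set μ := detF e (colZ D z {q // q ∉ S0} W G i0 j0
      fun q b => (Pi.single q 1 : Mi d → L) b.1) with hμdef
  have hμ : μ ≠ 0 := detF_ne_zero e _ (li_col D z W G i0 j0 S0 hli)
  set Δ := ∑ m, d m * (d m + 1) / 2 with hΔ
  -- the local inequality
  have hloc : ∀ p, S.v p μ * mxP S (z 0) (z 1) p ^ Δ * S.v p (plu (z 0) (z 1) i0 j0) ^ (1 * E) ≤
      exp (B p : ℤ) ^ (2 * w + κ + (c + ∑ m, d m)) *
        mxP S (z 0) (z 1) p ^ (n + 1 + κ + 1 * E) * S.v p (plu (z 0) (z 1) i0 j0) ^ Δ := by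
    intro p
    obtain ⟨i, j, hij⟩ := exists_mxP S (z 0) (z 1) p
    have hq0 : mxP S (z 0) (z 1) p ≠ 0 := mxP_ne_zero S (z 0) (z 1) h00 p
    have hpl : plu (z 0) (z 1) i j ≠ 0 := fun h => hq0 (by rw [← hij, h, map_zero])
    have hle : ∀ i' j', S.v p (plu (z 0) (z 1) i' j') ≤ mxP S (z 0) (z 1) p :=
      le_mxP S (z 0) (z 1) p
    set Q := mxP S (z 0) (z 1) p with hQ
    set P0 := S.v p (plu (z 0) (z 1) i0 j0) with hP0
    have hP00 : P0 ≠ 0 := (map_ne_zero _).2 h00
    have hP0Q : P0 ≤ Q := hle i0 j0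
    set M : ℤᵐ⁰ := exp (B p : ℤ) with hMdef
    have hM : 1 ≤ M := by
      rw [hMdef, ← exp_zero]
      exact WithZero.exp_le_exp.2 (by positivity)
    have hdel : ∀ m I, I.degree = d m → ∀ f, S.v p f ≤ 1 → S.v p (D.del m I f) ≤ M :=
      fun m I hI f hf => hB.del p m I hI f hf
    have hF : ∀ m, CB (S.v p) (D.F m) M := fun m I => hB.F p m I
    -- the frame
    have hzf : ∀ a r, S.v p (zf z i j a r) ≤ 1 := by
      intro a r
      unfold zf
      split_ifs
      · rw [map_div₀, hij]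
        exact div_le_one_of_le₀ (hle _ _) zero_le
      · rw [map_div₀, hij]
        exact div_le_one_of_le₀ (hle _ _) zero_le
    have hlam : ∀ (q : Mi d) (b : {q : Mi d // q ∉ S0}),
        ∑ q', CM z d i0 j0 i j q' q * (Pi.single q' 1 : Mi d → L) b.1 =
          CM z d i0 j0 i j b.1 q := by
      intro q b
      rw [Finset.sum_eq_single b.1]
      · rw [Pi.single_eq_same, mul_one]
      · intro b' _ hb'
        rw [Pi.single_eq_of_ne (Ne.symm hb'), mul_zero]
      · intro h; exact absurd (Finset.mem_univ _) h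
    have h1 := detF_pair D z W G e i0 j0 i j (fun q b => (Pi.single q 1 : Mi d → L) b.1)
      (CM z d i0 j0 i j) (fun q => by
        rw [← V2_smul_sum D z, ← V2_sub]
        refine hsp _ (fun m => ?_) (fun m => mon_sub z h00 i j q m)
        rw [Pi.sub_apply, Finset.sum_apply]
        refine (hom_mon i j q m).sub ?_
        refine IsHomogeneous.sum _ _ _ fun q' _ => ?_
        rw [Pi.smul_apply, smul_eq_C_mul]
        have := (isHomogeneous_C (Fin (n + 1)) (CM z d i0 j0 i j q' q)).mul (hom_mon i0 j0 q' m)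
        rwa [zero_add] at this)
    rw [det_CM z h00, ← hμdef] at h1
    simp only [hlam] at h1
    have h2 := detF_loc D z (zf z i j) (gf z i j) (zf_eq z hpl) (by rw [det_gf]; exact hpl) e W G
      i j (fun q b => CM z d i0 j0 i j b.1 q)
    rw [h1, det_gf] at h2
    -- the bound of the determinant
    have hβ : ∀ i' j', S.v p (plu (z 0) (z 1) i' j' / plu (z 0) (z 1) i0 j0) ≤ Q / P0 := by
      intro i' j'
      rw [map_div₀]
      exact div_le_div_of_nonneg_right (hle _ _) zero_le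
    have hβ1 : 1 ≤ Q / P0 := by
      rw [one_le_div₀ (zero_lt_iff.2 hP00)]
      exact hP0Q
    obtain ⟨A', B', e1, e2, hA1, hB1, he1, he2, he12, hAB⟩ := CM_red (d := d) z (S.v p) h00 i j hβ
      (by rw [map_div₀, hij]) (lt_of_lt_of_le zero_lt_one hβ1).ne'
    have hMM : 1 ≤ M * M := by
      calc (1 : ℤᵐ⁰) = 1 * 1 := (one_mul 1).symm
        _ ≤ _ := mul_le_mul' hM hM
    have h3 := v_detF_rows (S.v p) e (colZ D (zf z i j) {q // q ∉ S0} W G i j
        fun q b => CM z d i0 j0 i j b.1 q)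
      (fun (b : {q : Mi d // q ∉ S0}) (s : Mi d) => A' b.1 s)
      (Sum.elim (fun _ _ => 0) (Sum.elim (fun _ _ => 0) fun q s => B' s q))
      (by
        rintro (q | (k | q)) b
        · simp [colZ]
        · rcases k with k | k
          · simp [colZ]
          · simp [colZ]
        · simp only [colZ, Sum.elim_inr]
          rw [hAB, Matrix.mul_apply])
      (Sum.elim (fun _ => 1) (Sum.elim (Sum.elim (fun _ => M * M) fun _ => Q * M) fun _ => M))
      (fun s : Mi d => S.v p e1 ^ (s.2 : ℕ) * S.v p e2 ^ (d s.1 - (s.2 : ℕ)))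
      ?_ ?_ (fun b s => hA1 b.1 s) ((Q / P0) ^ E) ?_
    · simp only [Fintype.prod_sum_type, Sum.elim_inl, Sum.elim_inr, Finset.prod_const_one,
        Finset.prod_const, Finset.card_univ, Fintype.card_fin, one_mul] at h3
      rw [hMi] at h3
      have h4 := congrArg (S.v p) h2
      rw [map_mul, map_mul, map_pow, map_pow, map_div₀, hij, ← hP0] at h4
      have h5 : S.v p μ * (Q / P0) ^ Δ ≤ Q ^ (n + 1) *
          (((Q / P0) ^ E) ^ 1 * ((M * M) ^ w * (Q * M) ^ κ * M ^ (c + ∑ m, d m))) := by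
        rw [h4, pow_one]
        exact mul_le_mul' le_rfl h3
      exact local_aux _ _ _ _ hP00 _ _ _ _ _ _ _ h5
    · rintro (q | ((k | k) | q)) ρ
      · simp only [colZ, Sum.elim_inl]
        unfold fx
        split_ifs
        · exact hzf _ _
        · rw [map_zero]; exact zero_le
      · simp only [colZ, Sum.elim_inl, Sum.elim_inr]
        exact W2_bound D _ hM hdel hF hzf (W k) ρ
      · simp only [colZ, Sum.elim_inl, Sum.elim_inr]
        refine V2_bound D _ hdel hzf (G k) (fun m => ?_) (fun m => ?_) ρ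
        · rw [hG]
          exact deg_mulT (hA k) (hom_hT _ _ _ _ _) m
        · rw [hG]
          have := (hA' p k m).mul _ (CB_hT (z 0) (z 1) S p (h k).1 (h k).2.1 (h k).2.2)
          rw [one_mul] at this
          exact this
      · simp only [colZ, Sum.elim_inl, Sum.elim_inr]
        have := V2_bound D (zf z i j) hdel hzf (mon d L i j q)
          (fun m => deg_of_hom (hom_mon i j q m)) (fun m => CB_mon i j q m) ρ
        rwa [one_mul] at this
    · rintro (q | (k | q)) s
      · simp only [Sum.elim_inl, map_zero]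
        exact zero_le
      · simp only [Sum.elim_inl, Sum.elim_inr, map_zero]
        exact zero_le
      · simp only [Sum.elim_inr]
        calc S.v p (B' s q) ≤ S.v p e1 ^ (s.2 : ℕ) * S.v p e2 ^ (d s.1 - (s.2 : ℕ)) := hB1 s q
          _ = S.v p e1 ^ (s.2 : ℕ) * S.v p e2 ^ (d s.1 - (s.2 : ℕ)) * 1 := (mul_one _).symm
          _ ≤ _ := mul_le_mul' le_rfl hM
    · intro f hf
      rw [Finset.prod_mul_distrib, Finset.prod_pow_eq_pow_sum, Finset.prod_pow_eq_pow_sum]
      exact pow_two_le hβ1 he1 he2 he12 _ _ _ (hE _ f hK hf).1 (hE _ f hK hf).2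
  rw [one_mul] at hloc
  exact glob_q S (z 0) (z 1) hS h00 B hB.fin μ hμ Δ _ _ _ _ hloc

end main

end Pool.Agent.T2C.H52
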