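import Pool.Agent.Lib.MP_c7af3c_ag.T2C.H52.SymMul

/-!
# MP_c7af3c_ag, project T2C, module HL5C, part 2: expansion of a determinant along some rows
(helper52)
-/

set_option autoImplicit false

namespace Pool.Agent.T2C.H52

open Matrix Pool.Agent.Lines.H26

section

variable {L : Type} [Field L] {Γ : Type} [LinearOrderedCommGroupWithZero Γ]

theorem v_det_rc {R : Type} [Fintype R] [DecidableEq R] (v : Valuation L Γ)
    (N : Matrix R R L) (σ ρ : R → Γ) (h : ∀ r k, v (N r k) ≤ ρ r * σ k) :
    v N.det ≤ (∏ r, ρ r) * ∏ k, σ k := by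
  rw [Matrix.det_apply]
  refine v.map_sum_le fun τ _ => ?_
  have h1 : v (Equiv.Perm.sign τ • ∏ i, N (τ i) i) = ∏ i, v (N (τ i) i) := by
    rcases Int.units_eq_one_or (Equiv.Perm.sign τ) with h | h
    · rw [h, one_smul, map_prod]
    · rw [h, Units.neg_smul, one_smul, Valuation.map_neg, map_prod]
  rw [h1]
  have h2 : (∏ r, ρ r) * ∏ k, σ k = ∏ k, ρ (τ k) * σ k := by
    rw [Finset.prod_mul_distrib]
    congr 1
    rw [← Equiv.prod_comp τ]
  rw [h2]
  exact Finset.prod_le_prod' fun i _ => h _ _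

variable {A K S : Type} [Fintype A] [DecidableEq A] [Fintype K] [DecidableEq K] [Fintype S]
  [DecidableEq S]

/-- the rows of the expansion -/
def rowX (N : A ⊕ K → A ⊕ K → L) (T : K → S → L) (u : A ⊕ K → S → L) :
    A ⊕ K → Option S → (A ⊕ K → L)
  | Sum.inl a, none => fun k => N (Sum.inl a) k
  | Sum.inl _, some _ => 0
  | Sum.inr _, none => 0
  | Sum.inr b, some s => fun k => T b s * u k s

theorem v_det_rows (v : Valuation L Γ) (N : A ⊕ K → A ⊕ K → L) (T : K → S → L)
    (u : A ⊕ K → S → L) (hN : ∀ k b, N (Sum.inr b) k = ∑ s, T b s * u k s)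
    (σ : A ⊕ K → Γ) (τ : S → Γ) (hA : ∀ k a, v (N (Sum.inl a) k) ≤ σ k)
    (hu : ∀ k s, v (u k s) ≤ τ s * σ k) (hT : ∀ b s, v (T b s) ≤ 1) (E : Γ)
    (hE : ∀ f : K → S, Function.Injective f → ∏ b, τ (f b) ≤ E) :
    v (Matrix.det (Matrix.of N)) ≤ E * ∏ k, σ k := by
  classical
  have h1 : (fun i => ∑ j, rowX N T u i j) = N := by
    funext i k
    rw [Fintype.sum_option, Pi.add_apply, Finset.sum_apply]
    rcases i with a | b
    · simp [rowX]
    · rw [hN]
      simp [rowX]
  have h2 : Matrix.det (Matrix.of N) =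
      ∑ r : (A ⊕ K → Option S), Matrix.detRowAlternating fun i => rowX N T u i (r i) := by
    have h3 := (Matrix.detRowAlternating (R := L) (n := A ⊕ K)).toMultilinearMap.map_sum
      (α := fun _ => Option S) (rowX N T u)
    rw [h1] at h3
    exact h3
  rw [h2]
  refine v.map_sum_le fun r _ => ?_
  -- a zero row
  by_cases hz : ∃ i, rowX N T u i (r i) = 0
  · obtain ⟨i, hi⟩ := hz
    have h4 : Matrix.detRowAlternating (fun i => rowX N T u i (r i)) = 0 :=
      (Matrix.detRowAlternating (R := L) (n := A ⊕ K)).map_coord_zero i hi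
    rw [h4, map_zero]
    exact zero_le
  push Not at hz
  have h5 : ∀ a, r (Sum.inl a) = none := by
    intro a
    have h6 := hz (Sum.inl a)
    rcases hr : r (Sum.inl a) with _ | s
    · rfl
    · rw [hr] at h6
      exact absurd rfl h6
  have h6 : ∀ b, ∃ s, r (Sum.inr b) = some s := by
    intro b
    have h7 := hz (Sum.inr b)
    rcases hr : r (Sum.inr b) with _ | s
    · rw [hr] at h7
      exact absurd rfl h7
    · exact ⟨s, rfl⟩
  choose f hf using h6
  set m : A ⊕ K → (A ⊕ K → L) := Sum.elim (fun a => N (Sum.inl a)) fun b k => u k (f b) with hm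
  set cc : A ⊕ K → L := Sum.elim (fun _ => 1) fun b => T b (f b) with hcc
  have h7 : (fun i => rowX N T u i (r i)) = fun i => cc i • m i := by
    funext i
    rcases i with a | b
    · rw [h5 a]
      simp only [hcc, hm, Sum.elim_inl, one_smul]
      rfl
    · rw [hf b]
      simp only [hcc, hm, Sum.elim_inr]
      rfl
  have h8 : Matrix.detRowAlternating (fun i => rowX N T u i (r i)) =
      (∏ i, cc i) * Matrix.det (Matrix.of m) := by
    rw [h7]
    have h9 := (Matrix.detRowAlternating (R := L) (n := A ⊕ K)).toMultilinearMap.map_smul_univ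
      cc m
    exact h9
  rw [h8, map_mul]
  have h9 : v (∏ i, cc i) ≤ 1 := by
    rw [map_prod]
    refine Finset.prod_le_one' fun i _ => ?_
    rcases i with a | b
    · simp [hcc]
    · simp only [hcc, Sum.elim_inr]
      exact hT b (f b)
  by_cases hinj : Function.Injective f
  · have h10 := v_det_rc v (Matrix.of m) σ (Sum.elim (fun _ => 1) fun b => τ (f b)) (by
      rintro (a | b) k
      · simp only [hm, Matrix.of_apply, Sum.elim_inl, one_mul]
        exact hA k a
      · simp only [hm, Matrix.of_apply, Sum.elim_inr]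
        exact hu k (f b))
    rw [Fintype.prod_sum_type] at h10
    simp only [Sum.elim_inl, Sum.elim_inr, Finset.prod_const_one, one_mul] at h10
    calc v (∏ i, cc i) * v (Matrix.det (Matrix.of m)) ≤ 1 * ((∏ b, τ (f b)) * ∏ k, σ k) :=
          mul_le_mul' h9 h10
      _ = (∏ b, τ (f b)) * ∏ k, σ k := one_mul _
      _ ≤ _ := mul_le_mul' (hE f hinj) le_rfl
  · have h10 : Matrix.det (Matrix.of m) = 0 := by
      obtain ⟨b, b', hb, hne⟩ : ∃ b b', f b = f b' ∧ b ≠ b' := by
        by_contra hc
        push Not at hc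
        exact hinj fun b b' h => hc b b' h
      refine Matrix.det_zero_of_row_eq (i := Sum.inr b) (j := Sum.inr b')
        (fun h => hne (Sum.inr_injective h)) ?_
      funext k
      simp only [hm, Matrix.of_apply, Sum.elim_inr, hb]
    rw [h10, map_zero, mul_zero]
    exact zero_le

/-- the form for families of vectors -/
theorem v_detF_rows {ι : Type} [Fintype ι] [DecidableEq ι] (v : Valuation L Γ) (e : ι ≃ A ⊕ K)
    (w : ι → A ⊕ K → L) (T : K → S → L) (u : ι → S → L)
    (hw : ∀ k b, w k (Sum.inr b) = ∑ s, T b s * u k s) (σ : ι → Γ) (τ : S → Γ)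
    (hA : ∀ k a, v (w k (Sum.inl a)) ≤ σ k) (hu : ∀ k s, v (u k s) ≤ τ s * σ k)
    (hT : ∀ b s, v (T b s) ≤ 1) (E : Γ)
    (hE : ∀ f : K → S, Function.Injective f → ∏ b, τ (f b) ≤ E) :
    v (detF e w) ≤ E * ∏ k, σ k := by
  have h1 : detF e w = Matrix.det (Matrix.of fun r r' => w (e.symm r') r) := by
    unfold detF
    rw [← Matrix.det_submatrix_equiv_self e (Matrix.of fun r r' => w (e.symm r') r)]
    congr 1
    ext a k
    simp
  have h2 := v_det_rows v (fun r r' => w (e.symm r') r) T (fun r s => u (e.symm r) s)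
    (fun k b => hw _ b) (fun r => σ (e.symm r)) τ (fun k a => hA _ a) (fun k s => hu _ s) hT E hE
  rw [h1]
  refine h2.trans (le_of_eq ?_)
  congr 1
  exact Equiv.prod_comp e.symm σ

end

end Pool.Agent.T2C.H52
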