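import Pool.Agent.Lib.MP_c7af3c_ag.LINES.H26.Hbl

/-!
# MP_c7af3c_ag, project T2C, module HL5C, part 1: symmetric powers of 2 x 2 matrices (helper52)
-/

set_option autoImplicit false

namespace Pool.Agent.T2C.H52

open Polynomial Pool.Agent.Lines

section

variable {L : Type} [Field L]

/-- multiplicativity of the symmetric powers -/
theorem symM_mul (d : ℕ) (α β γ δ α' β' γ' δ' : L) :
    symM d (α * α' + β * γ') (α * β' + β * δ') (γ * α' + δ * γ') (γ * β' + δ * δ') =
      symM d α' β' γ' δ' * symM d α β γ δ := by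
  ext a'' a
  rw [Matrix.mul_apply]
  have h1 := symM_id (C α' * X + C β' : L[X]) (C γ' * X + C δ') d α β γ δ a
  have e1 : α • (C α' * X + C β' : L[X]) + β • (C γ' * X + C δ') =
      C (α * α' + β * γ') * X + C (α * β' + β * δ') := by
    rw [smul_eq_C_mul, smul_eq_C_mul]
    simp only [map_add, map_mul]
    ring
  have e2 : γ • (C α' * X + C β' : L[X]) + δ • (C γ' * X + C δ') =
      C (γ * α' + δ * γ') * X + C (γ * β' + δ * δ') := by
    rw [smul_eq_C_mul, smul_eq_C_mul]
    simp only [map_add, map_mul]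
    ring
  rw [e1, e2] at h1
  have h2 := congrArg (fun P => Polynomial.coeff P (a'' : ℕ)) h1
  simp only [Polynomial.finsetSum_coeff, Polynomial.coeff_smul, smul_eq_mul] at h2
  change ((C (α * α' + β * γ') * X + C (α * β' + β * δ')) ^ (a : ℕ) *
    (C (γ * α' + δ * γ') * X + C (γ * β' + δ * δ')) ^ (d - a)).coeff a'' = _
  rw [h2]
  refine Finset.sum_congr rfl fun a' _ => ?_
  rw [mul_comm]
  rfl

/-- diagonal matrices -/
theorem symM_diag (d : ℕ) (e1 e2 : L) (a' a : Fin (d + 1)) :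
    symM d e1 0 0 e2 a' a = if a' = a then e1 ^ (a : ℕ) * e2 ^ (d - (a : ℕ)) else 0 := by
  change ((C e1 * X + C 0) ^ (a : ℕ) * (C 0 * X + C e2) ^ (d - (a : ℕ)) : L[X]).coeff a' = _
  have h : ((C e1 * X + C 0) ^ (a : ℕ) * (C 0 * X + C e2) ^ (d - (a : ℕ)) : L[X]) =
      C (e1 ^ (a : ℕ) * e2 ^ (d - (a : ℕ))) * X ^ (a : ℕ) := by
    rw [C_0, add_zero, zero_mul, zero_add, mul_pow, C_mul, C_pow, C_pow]
    ring
  rw [h, coeff_C_mul, coeff_X_pow]
  by_cases h1 : a' = a
  · rw [if_pos h1, if_pos (by rw [h1]), mul_one]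
  · rw [if_neg h1, if_neg (fun h2 => h1 (Fin.ext h2)), mul_zero]

variable {Γ : Type} [LinearOrderedCommGroupWithZero Γ]

/-- the reduction of a matrix at a place -/
structure Red (v : Valuation L Γ) (b : Γ) (α β γ δ : L) : Prop where
  ex : ∃ p q r s p' q' r' s' e1 e2 : L, v p ≤ 1 ∧ v q ≤ 1 ∧ v r ≤ 1 ∧ v s ≤ 1 ∧ v p' ≤ 1 ∧
    v q' ≤ 1 ∧ v r' ≤ 1 ∧ v s' ≤ 1 ∧ v e1 ≤ b ∧ v e2 ≤ v e1 ∧ v (e1 * e2) = v (α * δ - β * γ) ∧
    α = (p * e1) * p' + (q * e2) * r' ∧ β = (p * e1) * q' + (q * e2) * s' ∧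
    γ = (r * e1) * p' + (s * e2) * r' ∧ δ = (r * e1) * q' + (s * e2) * s'

theorem div_le' (v : Valuation L Γ) {a b : L} (hb : b ≠ 0) (h : v a ≤ v b) : v (a / b) ≤ 1 := by
  rw [map_div₀]
  exact div_le_one_of_le₀ h zero_le

theorem e2_le (v : Valuation L Γ) {a b c e : L} (ha : a ≠ 0) (hb : v b ≤ v a) (hc : v c ≤ v a)
    (he : v e ≤ v a) : v (e - b * c / a) ≤ v a := by
  refine (v.map_sub _ _).trans (max_le he ?_)
  have h : b * c / a = b * (c / a) := by ring
  rw [h, map_mul]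
  calc v b * v (c / a) ≤ v a * 1 := mul_le_mul' hb (div_le' v ha hc)
    _ = v a := mul_one _

theorem exists_red (v : Valuation L Γ) (b : Γ) (α β γ δ : L) (hα : v α ≤ b) (hβ : v β ≤ b)
    (hγ : v γ ≤ b) (hδ : v δ ≤ b) (hdet : α * δ - β * γ ≠ 0) : Red v b α β γ δ := by
  have h1 : v (1 : L) ≤ 1 := (map_one v).le
  have h0 : v (0 : L) ≤ 1 := by rw [map_zero]; exact zero_le
  obtain ⟨i, hi⟩ := Finite.exists_max fun i : Fin 4 => v (![α, β, γ, δ] i)
  have m1 := hi 0
  have m2 := hi 1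
  have m3 := hi 2
  have m4 := hi 3
  fin_cases i
  · change v α ≤ v α at m1
    change v β ≤ v α at m2
    change v γ ≤ v α at m3
    change v δ ≤ v α at m4
    have ha : α ≠ 0 := by
      rintro rfl
      rw [map_zero, le_zero_iff, map_eq_zero] at m2 m4
      rw [m2, m4] at hdet
      simp at hdet
    refine ⟨1, 0, γ / α, 1, 1, β / α, 0, 1, α, δ - β * γ / α, h1, h0, div_le' v ha m3, h1, h1,
      div_le' v ha m2, h0, h1, hα, e2_le v ha m2 m3 m4, ?_, ?_, ?_, ?_, ?_⟩
    · congr 1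
      field_simp
    · ring
    · field_simp
      ring
    · field_simp
      ring
    · field_simp
      ring
  · change v α ≤ v β at m1
    change v β ≤ v β at m2
    change v γ ≤ v β at m3
    change v δ ≤ v β at m4
    have ha : β ≠ 0 := by
      rintro rfl
      rw [map_zero, le_zero_iff, map_eq_zero] at m1
      rw [m1] at hdet
      simp at hdet
    refine ⟨1, 0, δ / β, 1, α / β, 1, 1, 0, β, γ - α * δ / β, h1, h0, div_le' v ha m4, h1,
      div_le' v ha m1, h1, h1, h0, hβ, e2_le v ha m1 m4 m3, ?_, ?_, ?_, ?_, ?_⟩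
    · rw [← Valuation.map_neg]
      congr 1
      field_simp
      ring
    · field_simp
      ring
    · ring
    · field_simp
      ring
    · field_simp
      ring
  · change v α ≤ v γ at m1
    change v β ≤ v γ at m2
    change v γ ≤ v γ at m3
    change v δ ≤ v γ at m4
    have ha : γ ≠ 0 := by
      rintro rfl
      rw [map_zero, le_zero_iff, map_eq_zero] at m1
      rw [m1] at hdet
      simp at hdet
    refine ⟨α / γ, 1, 1, 0, 1, δ / γ, 0, 1, γ, β - α * δ / γ, div_le' v ha m1, h1, h1, h0, h1,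
      div_le' v ha m4, h0, h1, hγ, e2_le v ha m1 m4 m2, ?_, ?_, ?_, ?_, ?_⟩
    · rw [← Valuation.map_neg]
      congr 1
      field_simp
      ring
    · field_simp
      ring
    · field_simp
      ring
    · ring
    · field_simp
      ring
  · change v α ≤ v δ at m1
    change v β ≤ v δ at m2
    change v γ ≤ v δ at m3
    change v δ ≤ v δ at m4
    have ha : δ ≠ 0 := by
      rintro rfl
      rw [map_zero, le_zero_iff, map_eq_zero] at m1 m2
      rw [m1, m2] at hdet
      simp at hdet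
    refine ⟨β / δ, 1, 1, 0, γ / δ, 1, 1, 0, δ, α - β * γ / δ, div_le' v ha m2, h1, h1, h0,
      div_le' v ha m3, h1, h1, h0, hδ, e2_le v ha m2 m3 m1, ?_, ?_, ?_, ?_, ?_⟩
    · congr 1
      field_simp
    · field_simp
      ring
    · field_simp
      ring
    · field_simp
      ring
    · ring

end

end Pool.Agent.T2C.H52
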